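import Pool.Agent.Helper35.MS.StC

/-!
# Project MS, module AV1: two vectors, rotation, Cauchy-Schwarz
-/

set_option autoImplicit false

namespace Helper40.MS

open Helper35.MS Helper35.PI Helper35.PI2 Helper32.CL

/-- the bound for a rotated pair -/
lemma av1_rot {V : Type} [NormedAddCommGroup V] [InnerProductSpace ℝ V] (m a b : V) (p q : ℝ)
    (hpq : p ^ 2 + q ^ 2 = 1) :
    0 ≤ ‖p • a + q • b‖ ^ 2 ∧ ‖p • a + q • b‖ ^ 2 ≤ ‖a‖ ^ 2 + ‖b‖ ^ 2 ∧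
      (p * (inner ℝ m a : ℝ) + q * (inner ℝ m b : ℝ)) ^ 2 ≤ ‖m‖ ^ 2 * ‖p • a + q • b‖ ^ 2 ∧
      ‖a‖ ^ 2 * ‖b‖ ^ 2 - (inner ℝ a b : ℝ) ^ 2 ≤
        ‖p • a + q • b‖ ^ 2 * (‖a‖ ^ 2 + ‖b‖ ^ 2 - ‖p • a + q • b‖ ^ 2) := by
  have h1 : ‖p • a + q • b‖ ^ 2 =
      p ^ 2 * ‖a‖ ^ 2 + 2 * p * q * (inner ℝ a b : ℝ) + q ^ 2 * ‖b‖ ^ 2 := by
    rw [← real_inner_self_eq_norm_sq, ← real_inner_self_eq_norm_sq a,
      ← real_inner_self_eq_norm_sq b]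
    simp only [inner_add_left, inner_add_right, real_inner_smul_left, real_inner_smul_right]
    rw [real_inner_comm a b]
    ring
  have h2 : ‖(-q) • a + p • b‖ ^ 2 =
      q ^ 2 * ‖a‖ ^ 2 - 2 * p * q * (inner ℝ a b : ℝ) + p ^ 2 * ‖b‖ ^ 2 := by
    rw [← real_inner_self_eq_norm_sq, ← real_inner_self_eq_norm_sq a,
      ← real_inner_self_eq_norm_sq b]
    simp only [inner_add_left, inner_add_right, real_inner_smul_left, real_inner_smul_right]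
    rw [real_inner_comm a b]
    ring
  have h3 : 0 ≤ ‖(-q) • a + p • b‖ ^ 2 := by positivity
  have h4 : ‖p • a + q • b‖ ^ 2 + ‖(-q) • a + p • b‖ ^ 2 = ‖a‖ ^ 2 + ‖b‖ ^ 2 := by
    rw [h1, h2]
    linear_combination (‖a‖ ^ 2 + ‖b‖ ^ 2) * hpq
  refine ⟨by positivity, by linarith, ?_, ?_⟩
  · have h5 : (inner ℝ m (p • a + q • b) : ℝ) = p * inner ℝ m a + q * inner ℝ m b := by
      simp only [inner_add_right, real_inner_smul_right]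
    rw [← h5, ← mul_pow, sq_le_sq, abs_of_nonneg (mul_nonneg (norm_nonneg m) (norm_nonneg _))]
    exact abs_real_inner_le_norm _ _
  · have h6 : ‖a‖ ^ 2 + ‖b‖ ^ 2 - ‖p • a + q • b‖ ^ 2 = ‖(-q) • a + p • b‖ ^ 2 := by linarith
    rw [h6, h1, h2]
    have h7 : (p ^ 2 * ‖a‖ ^ 2 + 2 * p * q * (inner ℝ a b : ℝ) + q ^ 2 * ‖b‖ ^ 2) *
        (q ^ 2 * ‖a‖ ^ 2 - 2 * p * q * (inner ℝ a b : ℝ) + p ^ 2 * ‖b‖ ^ 2) -
        ((p ^ 2 - q ^ 2) * (inner ℝ a b : ℝ) + p * q * (‖b‖ ^ 2 - ‖a‖ ^ 2)) ^ 2 =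
        (p ^ 2 + q ^ 2) ^ 2 * (‖a‖ ^ 2 * ‖b‖ ^ 2 - (inner ℝ a b : ℝ) ^ 2) := by ring
    rw [hpq, one_pow, one_mul] at h7
    have h8 := sq_nonneg ((p ^ 2 - q ^ 2) * (inner ℝ a b : ℝ) + p * q * (‖b‖ ^ 2 - ‖a‖ ^ 2))
    linarith

/-- MODULE AV1. -/
theorem hAV1 : StAV1 := by
  intro V _ _ m a b
  rcases eq_or_lt_of_le (add_nonneg (sq_nonneg (inner ℝ m a : ℝ)) (sq_nonneg (inner ℝ m b : ℝ)))
    with hv | hv
  · obtain ⟨h1, h2, h3, h4⟩ := av1_rot m a b 1 0 (by norm_num)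
    refine ⟨_, h1, h2, ?_, h4⟩
    rw [← hv]
    positivity
  · have hs : 0 < Real.sqrt ((inner ℝ m a : ℝ) ^ 2 + (inner ℝ m b : ℝ) ^ 2) := Real.sqrt_pos.2 hv
    have hs2 := Real.sq_sqrt hv.le
    obtain ⟨h1, h2, h3, h4⟩ := av1_rot m a b
      ((inner ℝ m a : ℝ) / Real.sqrt ((inner ℝ m a : ℝ) ^ 2 + (inner ℝ m b : ℝ) ^ 2))
      ((inner ℝ m b : ℝ) / Real.sqrt ((inner ℝ m a : ℝ) ^ 2 + (inner ℝ m b : ℝ) ^ 2)) (by
        rw [div_pow, div_pow, hs2, ← add_div, div_self hv.ne'])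
    refine ⟨_, h1, h2, ?_, h4⟩
    refine le_trans (le_of_eq ?_) h3
    have h5 : (inner ℝ m a : ℝ) / Real.sqrt ((inner ℝ m a : ℝ) ^ 2 + (inner ℝ m b : ℝ) ^ 2) *
        (inner ℝ m a : ℝ) +
        (inner ℝ m b : ℝ) / Real.sqrt ((inner ℝ m a : ℝ) ^ 2 + (inner ℝ m b : ℝ) ^ 2) *
        (inner ℝ m b : ℝ) = Real.sqrt ((inner ℝ m a : ℝ) ^ 2 + (inner ℝ m b : ℝ) ^ 2) := by
      rw [div_mul_eq_mul_div, div_mul_eq_mul_div, ← add_div, div_eq_iff hs.ne', ← pow_two, ← pow_two,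
        ← pow_two, hs2]
    rw [h5, hs2]

end Helper40.MS
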