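import Pool.Agent.Helper35.MS.StF

/-!
Project MS (MP_925021_gt), module IN3: exponential decay in infinite time, by the mean value
inequality for `u = |H|² + θ - 1/τ`, `τ = 1/4 - t`.
-/

set_option autoImplicit false

namespace Helper40.MS

open Helper35.MS Helper35.PI Helper35.PI2 Helper32.CL
open scoped ContDiff Manifold Topology ENNReal BigOperators
open MeasureTheory Set Filter

/-- time slices of continuous functions on space time are continuous -/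
theorem csq {M V : Type} [TopologicalSpace M] [TopologicalSpace V] {J : Set ℝ}
    {g : M → ℝ → V} (h : CSTJ J g) {t : ℝ} (ht : t ∈ J) : Continuous (fun q => g q t) := by
  have h0 : ContinuousOn (fun z : M × ℝ => g z.1 z.2) (univ ×ˢ J) := h
  have h1 : Continuous (fun q : M => ((q, t) : M × ℝ)) := by fun_prop
  exact h0.comp_continuous h1 (fun q => ⟨mem_univ _, ht⟩)

/-- the derivative of `-1/(1/4-t)` -/
theorem hasDeriv_a {t : ℝ} (ht : t < 1 / 4) :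
    HasDerivAt (fun s : ℝ => -(1 / 4 - s)⁻¹) (-((1 / 4 - t) ^ 2)⁻¹) t := by
  have h0 : HasDerivAt (fun s : ℝ => 1 / 4 - s) (-1) t := by
    simpa using (hasDerivAt_id t).const_sub (1 / 4 : ℝ)
  have hne : (1 / 4 - t : ℝ) ≠ 0 := by linarith
  have h1 := (h0.inv hne).neg
  refine h1.congr_deriv ?_
  rw [neg_neg, ← one_div]

/-- the algebraic inequality behind the differential inequality -/
theorem alg_ineq {Y θ C τ τ₀ : ℝ} (hτ₀ : 0 < τ₀) (hτ : τ₀ ≤ τ) (hC : 0 < C) (hθ : 0 ≤ θ)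
    (hY : τ⁻¹ ≤ Y) (hYC : τ * Y ≤ C) :
    Y ^ 2 + Y * θ + 2 * (Y * θ) - (τ ^ 2)⁻¹ ≤ 3 * (C + 1) / τ₀ * (Y + θ - τ⁻¹) := by
  have hτp : 0 < τ := lt_of_lt_of_le hτ₀ hτ
  have hi : 0 < τ⁻¹ := inv_pos.mpr hτp
  have hY0 : 0 < Y := lt_of_lt_of_le hi hY
  have h1 : Y ≤ C / τ₀ := by
    rw [le_div_iff₀ hτ₀]
    nlinarith
  have h2 : τ⁻¹ ≤ 1 / τ₀ := by
    rw [one_div]
    exact inv_anti₀ hτ₀ hτ
  have h3 : Y + τ⁻¹ ≤ (C + 1) / τ₀ := by
    rw [add_div]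
    linarith
  have hp : 0 < (C + 1) / τ₀ := by positivity
  have h4 : (Y - τ⁻¹) * (Y + τ⁻¹) ≤ (Y - τ⁻¹) * ((C + 1) / τ₀) :=
    mul_le_mul_of_nonneg_left h3 (by linarith)
  have h5 : 3 * (Y * θ) ≤ 3 * ((C + 1) / τ₀ * θ) := by
    have : Y ≤ (C + 1) / τ₀ := by linarith
    nlinarith
  have h6 : 0 ≤ (Y - τ⁻¹) * ((C + 1) / τ₀) := mul_nonneg (by linarith) hp.le
  have h7 : (τ ^ 2)⁻¹ = τ⁻¹ * τ⁻¹ := by rw [_root_.sq, mul_inv]
  have h8 : 3 * (C + 1) / τ₀ * (Y + θ - τ⁻¹)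
      = 3 * ((Y - τ⁻¹) * ((C + 1) / τ₀)) + 3 * ((C + 1) / τ₀ * θ) := by ring
  rw [h7, h8]
  nlinarith

theorem hIN3 (hIN1 : StIN1) (hIN2 : StIN2) (hMVI : StMVI) (hEVC : StEVC) (hLIN : StLIN)
    (hMUJ : StMUJ) (_hENE : StENE) : StIN3 := by
  intro N M _ _ _ _ _ _ _ F c χ δ D hYlow
  obtain ⟨C₁, hC₁, h1⟩ := hIN1 N M F c χ δ D hYlow
  obtain ⟨C₂, ts₂, hC₂, hts₂, h2⟩ := hIN2 N M F c χ δ D hYlow
  have hP := D.pi
  have hImm : IsImmJ (n := 2) (Ioo (0 : ℝ) (1 / 4)) F := D.su.mcf.toIsImmJ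
  -- lower bound of `Y`
  have hYl : ∀ q, ∀ t ∈ Ioo (0 : ℝ) (1 / 4), (1 / 4 - t)⁻¹ ≤ YF F q t := by
    intro q t ht
    have h := hYlow q t ht
    have hpos : (0 : ℝ) < 1 / 4 - t := by linarith [ht.2]
    have he : (1 / 4 - t)⁻¹ = 4 / (1 - 4 * t) := by
      have : (1 - 4 * t : ℝ) = 4 * (1 / 4 - t) := by ring
      rw [this]
      field_simp
    rw [he]
    exact h
  -- the function `u`
  obtain ⟨hE0, hL⟩ := hLIN N M (Ioo 0 (1 / 4)) F hImm (YF F) (thF 2 F) 1 1 hP.eY hP.eth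
  have hfun : (fun (q : M) (t : ℝ) => 1 * YF F q t + 1 * thF 2 F q t)
      = fun q t => YF F q t + thF 2 F q t := by
    funext q t
    ring
  rw [hfun] at hE0
  have hsum : ∀ q, ∀ t ∈ Ioo (0 : ℝ) (1 / 4),
      htF F (fun q t => YF F q t + thF 2 F q t) q t
        ≤ YF F q t ^ 2 + YF F q t * thF 2 F q t + 2 * (YF F q t * thF 2 F q t) := by
    intro q t ht
    have h := (hL q t ht).2
    rw [hfun] at h
    rw [h]
    have ha := hP.hY q t ht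
    have hb := hP.hth q t ht
    linarith
  obtain ⟨hEu, hu⟩ := hEVC N M (Ioo 0 (1 / 4)) F hImm (fun q t => YF F q t + thF 2 F q t)
    (fun x => x) (fun t => -(1 / 4 - t)⁻¹) (fun t => -((1 / 4 - t) ^ 2)⁻¹) hE0 contDiff_id
    (fun t ht => hasDeriv_a ht.2) (by
      refine ContinuousOn.neg (ContinuousOn.inv₀ (by fun_prop) ?_)
      intro t ht
      have : (0 : ℝ) < 1 / 4 - t := by linarith [ht.2]
      positivity)
  obtain ⟨u, hudef⟩ : ∃ u : M → ℝ → ℝ,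
      u = fun q t => YF F q t + thF 2 F q t + -(1 / 4 - t)⁻¹ := ⟨_, rfl⟩
  have huE : Evo (Ioo (0 : ℝ) (1 / 4)) F u := by rw [hudef]; exact hEu
  have huh : ∀ q, ∀ t ∈ Ioo (0 : ℝ) (1 / 4), htF F u q t
      ≤ YF F q t ^ 2 + YF F q t * thF 2 F q t + 2 * (YF F q t * thF 2 F q t)
        - ((1 / 4 - t) ^ 2)⁻¹ := by
    intro q t ht
    have h := (hu q t ht).2
    have hd1 : deriv (fun x : ℝ => x) = fun _ => 1 := by
      funext x
      exact deriv_id x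
    have hd2 : deriv (fun _ : ℝ => (1 : ℝ)) = fun _ => 0 := by
      funext x
      exact deriv_const x 1
    rw [hd1, hd2] at h
    simp only [one_mul, zero_mul, sub_zero] at h
    rw [hudef, h]
    linarith [hsum q t ht]
  have hu0 : ∀ q, ∀ t ∈ Ioo (0 : ℝ) (1 / 4), 0 ≤ u q t := by
    intro q t ht
    rw [hudef]
    have ha := hYl q t ht
    have hb := hP.th0 q t ht
    show 0 ≤ YF F q t + thF 2 F q t + -(1 / 4 - t)⁻¹
    linarith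
  obtain ⟨K, hK⟩ : ∃ K : ℝ, K = 1 / 2 * Real.exp (3 * (C₂ + 1)) * C₁ * 2 ^ δ := ⟨_, rfl⟩
  have hKpos : 0 < K := by
    rw [hK]
    have := Real.rpow_pos_of_pos (show (0 : ℝ) < 2 by norm_num) δ
    positivity
  refine ⟨K, (1 / 4 + ts₂) / 2, hKpos, ⟨by linarith [hts₂.1, hts₂.2], by linarith [hts₂.2]⟩, ?_⟩
  intro t₀ ht₀ q
  obtain ⟨τ, hτdef⟩ : ∃ τ : ℝ, τ = 1 / 4 - t₀ := ⟨_, rfl⟩
  have hτ : 0 < τ := by rw [hτdef]; linarith [ht₀.2]
  have ht₀e : t₀ = 1 / 4 - τ := by rw [hτdef]; ring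
  obtain ⟨t₁, ht₁def⟩ : ∃ t₁ : ℝ, t₁ = 1 / 4 - 2 * τ := ⟨_, rfl⟩
  have hlow : ts₂ ≤ t₁ := by
    rw [ht₁def, hτdef]
    linarith [ht₀.1]
  have ht₁8 : (1 / 8 : ℝ) ≤ t₁ := le_trans hts₂.1 hlow
  have ht₁4 : t₁ < 1 / 4 := by rw [ht₁def]; linarith
  have h10 : t₀ - t₁ = τ := by rw [ht₁def, ht₀e]; ring
  have hlt : t₁ < t₀ := by linarith
  have hJ : Icc t₁ t₀ ⊆ Ioo (0 : ℝ) (1 / 4) := by
    intro t ht
    exact ⟨by linarith [ht.1], by linarith [ht.2, ht₀.2]⟩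
  have ht₁J : t₁ ∈ Ioo (0 : ℝ) (1 / 4) := hJ ⟨le_refl _, hlt.le⟩
  have hκ : 0 ≤ 3 * (C₂ + 1) / τ := by positivity
  have hmv := hMVI N M (Ioo 0 (1 / 4)) F c χ D.su u (3 * (C₂ + 1) / τ) t₁ t₀ huE hκ hlt hJ
    (fun q t ht => hu0 q t (hJ ht)) (by
      intro q t ht
      have htJ := hJ ht
      refine le_trans (huh q t htJ) ?_
      have hτt : τ ≤ 1 / 4 - t := by linarith [ht.2]
      have hb : (1 / 4 - t) * YF F q t ≤ C₂ :=
        h2 t ⟨le_trans hlow ht.1, htJ.2⟩ q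
      have := alg_ineq hτ hτt hC₂ (hP.th0 q t htJ) (hYl q t htJ) hb
      rw [hudef]
      show _ ≤ 3 * (C₂ + 1) / τ * (YF F q t + thF 2 F q t + -(1 / 4 - t)⁻¹)
      rw [← sub_eq_add_neg]
      exact this) q
  rw [h10] at hmv
  have hexp : 3 * (C₂ + 1) / τ * τ = 3 * (C₂ + 1) := by field_simp
  rw [hexp] at hmv
  -- the integral
  obtain ⟨s, _, hMU⟩ := hMUJ 2 N M (Ioo 0 (1 / 4)) F c χ D.su.toJ
  obtain ⟨_, _, hint⟩ := hMU t₁ ht₁J
  have hcY : Continuous (fun p => YF F p t₁) := csq hP.eY.c0 ht₁J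
  have hcθ : Continuous (fun p => thF 2 F p t₁) := csq hP.eth.c0 ht₁J
  have hcu : Continuous (fun p => u p t₁) := csq huE.c0 ht₁J
  have hiu := (hint _ hcu).1
  have hle : ∫ p, u p t₁ * Real.exp (-(‖F p t₁ - F q t₀‖ ^ 2 / (8 * τ))) ∂muM 2 F c χ t₁
      ≤ ∫ p, u p t₁ ∂muM 2 F c χ t₁ := by
    refine integral_mono_of_nonneg (ae_of_all _ fun p => ?_) hiu (ae_of_all _ fun p => ?_)
    · exact mul_nonneg (hu0 p t₁ ht₁J) (Real.exp_pos _).le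
    · have he : Real.exp (-(‖F p t₁ - F q t₀‖ ^ 2 / (8 * τ))) ≤ 1 := by
        rw [Real.exp_le_one_iff]
        have : 0 ≤ ‖F p t₁ - F q t₀‖ ^ 2 / (8 * τ) := by positivity
        linarith
      exact mul_le_of_le_one_right (hu0 p t₁ ht₁J) he
  have hsplit : ∫ p, u p t₁ ∂muM 2 F c χ t₁
      = (∫ p, (YF F p t₁ - 1 / (1 / 4 - t₁)) ∂muM 2 F c χ t₁) + eI F c χ t₁ := by
    unfold eI
    have hcY' : Continuous (fun p => YF F p t₁ - 1 / (1 / 4 - t₁)) := hcY.sub continuous_const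
    rw [← integral_add (hint _ hcY').1 (hint _ hcθ).1]
    refine integral_congr_ae (ae_of_all _ fun p => ?_)
    rw [hudef]
    show YF F p t₁ + thF 2 F p t₁ + -(1 / 4 - t₁)⁻¹
      = YF F p t₁ - 1 / (1 / 4 - t₁) + thF 2 F p t₁
    rw [one_div]
    ring
  obtain ⟨he1, _, _, _, he5⟩ := h1 t₁ ⟨ht₁8, ht₁4⟩
  have ht₁τ : 1 / 4 - t₁ = 2 * τ := by rw [ht₁def]; ring
  have hrp : (1 / 4 - t₁) ^ δ = 2 ^ δ * τ ^ δ := by
    rw [ht₁τ, Real.mul_rpow (by norm_num) hτ.le]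
  have hI : ∫ p, u p t₁ ∂muM 2 F c χ t₁ ≤ 2 * (C₁ * (2 ^ δ * τ ^ δ)) := by
    rw [hsplit]
    rw [hrp] at he1
    linarith
  have hfin : u q t₀ ≤ 1 / 4 * Real.exp (3 * (C₂ + 1)) / τ * (2 * (C₁ * (2 ^ δ * τ ^ δ))) :=
    le_trans hmv (mul_le_mul_of_nonneg_left (le_trans hle hI) (by positivity))
  have hmul : τ * u q t₀ ≤ K * τ ^ δ := by
    have h := mul_le_mul_of_nonneg_left hfin hτ.le
    refine le_trans h (le_of_eq ?_)
    rw [hK]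
    field_simp
    ring
  have hval : τ * u q t₀ = τ * (YF F q t₀ + thF 2 F q t₀) - 1 := by
    rw [hudef]
    show τ * (YF F q t₀ + thF 2 F q t₀ + -(1 / 4 - t₀)⁻¹) = _
    rw [← hτdef]
    field_simp
    ring
  rw [← hτdef, ← hval]
  exact hmul

end Helper40.MS
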